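import Pool.Agent.H73.CBE.Stmts

/-!
Row FDR of the board `cbe`
-/

set_option autoImplicit false

open Set Filter Topology

namespace Pool.CBE

theorem fdr_has {n : ℕ} (d : ℕ) (ζ a z : E n) :
    HasFDerivAt (fun z : E n => (inner ℂ ζ z : ℂ) ^ d • a)
      ((((d : ℂ) * (inner ℂ ζ z : ℂ) ^ (d - 1)) • (innerSL ℂ ζ)).smulRight a) z := by
  have h1 : HasFDerivAt (fun z : E n => (inner ℂ ζ z : ℂ)) (innerSL ℂ ζ) z :=
    (innerSL ℂ ζ).hasFDerivAt
  have h2 := (h1.pow d).smul_const a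
  refine h2.congr_fderiv ?_
  ext v
  simp [mul_assoc]

theorem FDR_thm : FDRStmt := by
  intro n d T w hd
  refine ⟨?_, ?_, ?_⟩
  · unfold fm
    refine ContDiff.sum fun ζ _ => ?_
    have h1 : ContDiff ℂ 2 (fun z : E n => (inner ℂ ζ z : ℂ)) := (innerSL ℂ ζ).contDiff
    exact (h1.pow d).smul contDiff_const
  · intro c z
    unfold fm
    rw [Finset.smul_sum]
    refine Finset.sum_congr rfl fun ζ _ => ?_
    rw [inner_smul_right, mul_pow, mul_smul]
  · intro z v
    have h : HasFDerivAt (fm d T w) (∑ ζ ∈ T,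
        (((d : ℂ) * (inner ℂ ζ z : ℂ) ^ (d - 1)) • (innerSL ℂ ζ)).smulRight (w ζ)) z := by
      unfold fm
      exact HasFDerivAt.fun_sum fun ζ _ => fdr_has d ζ (w ζ) z
    rw [h.fderiv, sum_apply]
    refine Finset.sum_congr rfl fun ζ _ => ?_
    simp

end Pool.CBE
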